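import Pool.Agent.Helper29.SR.Props

/-!
# MP_b55b7c_an, packet SR-Core: many elements at once
-/

open scoped ENNReal NNReal InnerProductSpace ComplexOrder
open Filter Topology

attribute [-instance] CStarMatrix.instAlgebra CStarMatrix.instModule CStarMatrix.instSMul
  CStarMatrix.instMulAction CStarMatrix.instDistribMulAction

noncomputable section
namespace RC
universe u

namespace H90Core

variable {M : Type u} [CStarAlgebra M] [PartialOrder M] [StarOrderedRing M]

theorem cut_star (v : M) (ε : ℝ) : star (cut v ε) = cut v ε := by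
  have h : 0 ≤ cut v ε := by
    unfold cut
    exact cfc_nonneg (fun x _ => le_max_right _ _)
  exact h.isSelfAdjoint

theorem ff_nonneg (v : M) (ε : ℝ) : 0 ≤ cut v ε * cut v ε := by
  have h := star_mul_self_nonneg (cut v ε)
  rwa [cut_star] at h

theorem bel_mono {ε d d' : ℝ} {v w : M} (hd : d' ≤ d) (h : Bel ε d v w) : Bel ε d' v w := by
  unfold Bel at h ⊢
  refine le_trans ?_ h
  have h1 : 0 ≤ (d - d') • (cut (sq v) ε * cut (sq v) ε) :=
    smul_nonneg (sub_nonneg.2 hd) (ff_nonneg _ _)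
  rw [sub_smul] at h1
  exact sub_nonneg.1 h1

/-- `F (sq V0) F ≤ 2 F (sq V) F + 2 κ² F F`. -/
theorem sq_pert (F V V₀ : M) (hF : star F = F) {κ : ℝ} (hκ : ‖V - V₀‖ ≤ κ) :
    F * sq V₀ * F ≤ (2 : ℝ) • (F * sq V * F) + (2 * κ ^ 2) • (F * F) := by
  have h1 : 0 ≤ F * sq (V + (V - V₀)) * F := by
    have := star_left_conjugate_nonneg (star_mul_self_nonneg (V + (V - V₀))) F
    rwa [hF] at this
  have h2 : sq (V - V₀) ≤ (κ ^ 2) • (1 : M) := by
    have hn : 0 ≤ κ := le_trans (norm_nonneg _) hκ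
    have h3 : sq (V - V₀) ≤ algebraMap ℝ M ‖sq (V - V₀)‖ :=
      IsSelfAdjoint.le_algebraMap_norm_self (IsSelfAdjoint.star_mul_self _)
    refine h3.trans ?_
    rw [Algebra.algebraMap_eq_smul_one]
    have h4 : ‖sq (V - V₀)‖ ≤ κ ^ 2 := by
      show ‖star (V - V₀) * (V - V₀)‖ ≤ κ ^ 2
      rw [CStarRing.norm_star_mul_self, ← pow_two]
      exact pow_le_pow_left₀ (norm_nonneg _) hκ 2
    have h5 : 0 ≤ (κ ^ 2 - ‖sq (V - V₀)‖) • (1 : M) :=
      smul_nonneg (sub_nonneg.2 h4) zero_le_one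
    rw [sub_smul] at h5
    exact sub_nonneg.1 h5
  have h6 : 0 ≤ F * ((κ ^ 2) • (1 : M) - sq (V - V₀)) * F := by
    have := star_left_conjugate_nonneg (sub_nonneg.2 h2) F
    rwa [hF] at this
  have h7 : (0 : M) ≤ F * sq (V + (V - V₀)) * F
      + (2 : ℝ) • (F * ((κ ^ 2) • (1 : M) - sq (V - V₀)) * F) :=
    add_nonneg h1 (smul_nonneg (by norm_num) h6)
  rw [← sub_nonneg]
  refine h7.trans_eq ?_
  simp only [sq, star_add, star_sub, mul_add, add_mul, mul_sub, sub_mul, mul_smul_comm,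
    smul_mul_assoc, mul_one, smul_sub, smul_smul, two_smul]
  abel

theorem bel_pert {ε d κ : ℝ} {v V V₀ : M} (hd : 0 < d) (hκ : ‖V - V₀‖ ≤ κ)
    (hk : κ ^ 2 = d / 4) (h : Bel ε d v V₀) : Bel ε (d / 4) v V := by
  unfold Bel at h ⊢
  set F := cut (sq v) ε with hFdef
  have hF : star F = F := cut_star _ _
  have h1 := h.trans (sq_pert F V V₀ hF hκ)
  rw [hk] at h1
  have h2 : (0 : M) ≤ (1 / 2 : ℝ) • ((2 : ℝ) • (F * sq V * F) + (2 * (d / 4)) • (F * F)
      - d • (F * F)) := smul_nonneg (by norm_num) (sub_nonneg.2 h1)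
  rw [← sub_nonneg]
  refine h2.trans_eq ?_
  rw [smul_sub, smul_add, smul_smul, smul_smul, smul_smul]
  have e1 : (1 / 2 : ℝ) * 2 = 1 := by norm_num
  have e2 : (1 / 2 * (2 * (d / 4)) - 1 / 2 * d : ℝ) = -(d / 4) := by ring
  rw [e1, one_smul, add_sub_assoc, ← sub_smul, e2, neg_smul, ← sub_eq_add_neg]

end H90Core

open H90Core in
/-- Packet SR-Core. -/
theorem coreP (step : CoreStepP.{u}) : CoreP.{u} := by
  intro M _ _ _ hS a b ε hε n
  induction n with
  | zero =>
    intro X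
    exact ⟨0, 1, one_pos, fun i => i.elim0⟩
  | succ n ih =>
    intro X
    obtain ⟨Y0, d0, hd0, hY0⟩ := ih (fun i => X i.succ)
    have hκ : 0 < Real.sqrt d0 / 2 := by positivity
    obtain ⟨Y, d1, hd1, hc, hB⟩ := step M hS a b Y0 (X 0) ε (Real.sqrt d0 / 2) hε hκ
    refine ⟨Y, min d1 (d0 / 4), lt_min hd1 (by positivity), fun i => ?_⟩
    refine Fin.cases ?_ (fun j => ?_) i
    · exact bel_mono (min_le_left _ _) hB
    · refine bel_mono (min_le_right _ _) (bel_pert hd0 hc ?_ (hY0 j))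
      rw [div_pow, Real.sq_sqrt hd0.le]
      norm_num

end RC
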