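import Pool.Agent.Helper47.SR.Goals

/-!
Packet SR-ORB: orbit-stabiliser count.
-/

set_option autoImplicit false

namespace Pool.Agent.Helper90.SR

open Finset Pool.Agent.Helper47.SR

theorem mv_mul {n : ℕ} (γ δ : Equiv.Perm (Fin n)) (A : Finset (Fin n)) :
    mv (γ * δ) A = mv γ (mv δ A) := by
  ext x
  simp only [mv, Finset.mem_map_equiv]
  rfl

theorem mv_one {n : ℕ} (A : Finset (Fin n)) : mv (1 : Equiv.Perm (Fin n)) A = A := by
  ext x
  simp only [mv, Finset.mem_map_equiv]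
  rfl

theorem mem_orb {n : ℕ} (G : Grp n) (A B : Finset (Fin n)) :
    B ∈ orb G A ↔ ∃ γ ∈ G, mv γ A = B := by
  classical
  unfold orb
  rw [Finset.mem_filter]
  exact ⟨fun h => h.2, fun h => ⟨Finset.mem_univ _, h⟩⟩

theorem self_mem_orb {n : ℕ} (G : Grp n) (A : Finset (Fin n)) : A ∈ orb G A :=
  (mem_orb G A A).2 ⟨1, G.one_mem, mv_one A⟩

theorem orb_eq_of_mem {n : ℕ} (G : Grp n) (A B : Finset (Fin n)) (h : B ∈ orb G A) :
    orb G B = orb G A := by
  obtain ⟨γ, hγ, rfl⟩ := (mem_orb G A B).1 h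
  ext C
  rw [mem_orb, mem_orb]
  constructor
  · rintro ⟨δ, hδ, rfl⟩
    exact ⟨δ * γ, G.mul_mem hδ hγ, mv_mul δ γ A⟩
  · rintro ⟨δ, hδ, rfl⟩
    refine ⟨δ * γ⁻¹, G.mul_mem hδ (G.inv_mem hγ), ?_⟩
    rw [← mv_mul, inv_mul_cancel_right]

open Classical in
theorem one_add_wt {n : ℕ} (G : Grp n) (A : Finset (Fin n)) :
    1 + wt G A = #((univ : Finset (Equiv.Perm (Fin n))).filter (fun γ => γ ∈ G ∧ mv γ A = A)) := by
  have h1 : (univ : Finset (Equiv.Perm (Fin n))).filter (fun γ => γ ∈ G ∧ mv γ A = A) =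
      insert 1 ((univ : Finset (Equiv.Perm (Fin n))).filter
        (fun γ => γ ∈ G ∧ γ ≠ 1 ∧ mv γ A = A)) := by
    ext γ
    simp only [Finset.mem_filter, Finset.mem_insert, Finset.mem_univ, true_and]
    constructor
    · rintro ⟨h1, h2⟩
      by_cases h : γ = 1
      · exact Or.inl h
      · exact Or.inr ⟨h1, h, h2⟩
    · rintro (h | ⟨h1, _, h2⟩)
      · rw [h]
        exact ⟨G.one_mem, mv_one A⟩
      · exact ⟨h1, h2⟩
  rw [h1, Finset.card_insert_of_notMem]
  · unfold wt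
    rw [add_comm]
  · simp

open Classical in
theorem fiber_card {n : ℕ} (G : Grp n) (A B : Finset (Fin n)) (h : B ∈ orb G A) :
    #(((univ : Finset (Equiv.Perm (Fin n))).filter (fun γ => γ ∈ G)).filter
      (fun γ => mv γ A = B)) = 1 + wt G B := by
  rw [one_add_wt]
  obtain ⟨δ, hδ, hB⟩ := (mem_orb G A B).1 h
  refine Finset.card_bij' (fun γ _ => γ * δ⁻¹) (fun γ _ => γ * δ) ?_ ?_ ?_ ?_
  · intro γ hγ
    simp only [Finset.mem_filter, Finset.mem_univ, true_and] at hγ ⊢
    refine ⟨G.mul_mem hγ.1 (G.inv_mem hδ), ?_⟩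
    rw [← hB, ← mv_mul, inv_mul_cancel_right, hγ.2, hB]
  · intro γ hγ
    simp only [Finset.mem_filter, Finset.mem_univ, true_and] at hγ ⊢
    refine ⟨G.mul_mem hγ.1 hδ, ?_⟩
    rw [mv_mul, hB, hγ.2]
  · intro γ _
    exact inv_mul_cancel_right γ δ
  · intro γ _
    exact mul_inv_cancel_right γ δ

end Pool.Agent.Helper90.SR

namespace Pool.Agent.Helper47.SR

open Finset Pool.Agent.Helper90.SR

theorem goal_ORB : Goal_ORB := by
  classical
  intro n G F hF
  have hG : Nat.card G = #((univ : Finset (Equiv.Perm (Fin n))).filter (fun γ => γ ∈ G)) := by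
    rw [Nat.card_eq_fintype_card, Fintype.card_subtype]
  unfold W
  rw [← Finset.sum_fiberwise_of_maps_to (g := orb G) (t := F.image (orb G))
    (fun A hA => Finset.mem_image_of_mem _ hA)]
  rw [Finset.sum_const_nat (m := Nat.card G)]
  · rw [mul_comm]
  · intro O hO
    obtain ⟨A, hA, rfl⟩ := Finset.mem_image.1 hO
    have h1 : F.filter (fun B => orb G B = orb G A) = orb G A := by
      ext B
      rw [Finset.mem_filter]
      constructor
      · rintro ⟨_, h⟩
        rw [← h]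
        exact self_mem_orb G B
      · intro h
        refine ⟨?_, orb_eq_of_mem G A B h⟩
        obtain ⟨γ, hγ, rfl⟩ := (mem_orb G A B).1 h
        exact hF γ hγ A hA
    rw [h1, hG]
    rw [Finset.card_eq_sum_card_fiberwise (f := fun γ => mv γ A) (t := orb G A)]
    · refine Finset.sum_congr rfl (fun B hB => ?_)
      exact (fiber_card G A B hB).symm
    · intro γ hγ
      rw [Finset.mem_coe, Finset.mem_filter] at hγ
      exact (mem_orb G A _).2 ⟨γ, hγ.2, rfl⟩

end Pool.Agent.Helper47.SR
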